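import Pool.Agent.L7h37.BP.Eqw

/-!
# Project BP of helper18: equidistribution in a window, the main statement (`S_EQW`)
-/

set_option autoImplicit false

open Finset Filter

namespace Pool.Agent.L7h37.BP

open Pool.Agent.H361R2.PP Pool.Agent.L7h18.BP
open Pool.Agent.L7h88.BW (th)

theorem s_EQW : S_EQW := by
  intro δ c₀ Λ K A hδ hδ1 hc₀ hΛ
  have hK0 : (0 : ℝ) ≤ K := Nat.cast_nonneg _
  obtain ⟨k, hk⟩ := Pool.Agent.H398R2.BV.sum_pow_omega_div_totient (((K : ℝ) + 1) ^ 2)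
    (one_le_pow₀ (by linarith))
  obtain ⟨c, hc⟩ : ∃ c : ℕ, c = 2 ^ k := ⟨_, rfl⟩
  rw [← hc] at hk
  obtain ⟨C₁, hC₁⟩ : ∃ C₁ : ℝ, C₁ = ((K : ℝ) + 1) ^ (K + 1) := ⟨_, rfl⟩
  have hC₁0 : 0 < C₁ := by rw [hC₁]; positivity
  have hev := ((ev (2 * C₁) (A + 1) (2 / 10) (by norm_num)).and
    ((ev (4 * C₁ * Λ) (A + 2) (2 / 10) (by norm_num)).and
    ((ev (8 * C₁) (A + 1) (2 / 10) (by norm_num)).and ((ev 1 1 (δ / 2) (by positivity)).and
      ((eventually_ge_atTop (100 : ℝ)).and (eventually_ge_atTop ((40 : ℝ) * 2 ^ c)))))))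
  obtain ⟨Y₀, hY₀⟩ := eventually_atTop.1 hev
  refine ⟨2 * A + c + 6, Y₀, fun Y hY κ u hκ1 hκ2 hu1 hu2 hth hBV => ?_⟩
  obtain ⟨g1, g2, g3, g4, g5, g6⟩ := hY₀ Y hY
  have hY0 : 0 < Y := by linarith
  have hκ : 0 < κ := lt_of_lt_of_le (Real.exp_pos _) hκ1
  have hexpY := Real.exp_pos Y
  obtain ⟨X, hX⟩ : ∃ X : ℕ, X = ⌊Real.exp (Y - 1 / 4)⌋₊ := ⟨_, rfl⟩
  rw [← hX]
  have hX1 : (X : ℝ) ≤ Real.exp (Y - 1 / 4) := by rw [hX]; exact Nat.floor_le (Real.exp_pos _).le
  have hX2 : Real.exp (Y - 1 / 4) < X + 1 := by rw [hX]; exact Nat.lt_floor_add_one _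
  have hXlow : Real.exp (Y / 2) ≤ X := by
    have e1 : Real.exp (Y - 1 / 4) = Real.exp (Y / 2) * Real.exp (Y / 2 - 1 / 4) := by
      rw [← Real.exp_add]; congr 1; ring
    have e2 := Real.add_one_le_exp (Y / 2 - 1 / 4)
    have e3 := Real.add_one_le_exp (Y / 2)
    have e4 : Real.exp (Y / 2) * 2 ≤ Real.exp (Y / 2) * Real.exp (Y / 2 - 1 / 4) :=
      mul_le_mul_of_nonneg_left (by linarith) (Real.exp_pos _).le
    linarith
  have hX51 : (51 : ℝ) ≤ X := by
    have e3 := Real.add_one_le_exp (Y / 2)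
    linarith
  have hX16 : 16 ≤ X := by
    have : (16 : ℝ) ≤ X := by linarith
    exact_mod_cast this
  have hX0 : (0 : ℝ) < X := by linarith
  have hlog1 : Y / 2 ≤ Real.log X := by
    rw [Real.le_log_iff_exp_le hX0]
    exact hXlow
  have hlog2 : Real.log X ≤ Y := by
    have := Real.log_le_log hX0 hX1
    rw [Real.log_exp] at this
    linarith
  have hlog0 : 0 < Real.log X := by linarith
  have hW : (Wm X : ℝ) ≤ Real.log X := Pool.Agent.H20R2.EQI.W_le X hX16
  have hWpos : 0 < Wm X := primorial_pos _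
  have hW0 : (0 : ℝ) < Wm X := by exact_mod_cast hWpos
  -- the length
  obtain ⟨H, hH⟩ : ∃ H : ℝ, H = Real.exp (u + κ) - Real.exp u := ⟨_, rfl⟩
  have hHd : (Wu u κ).H = H := hH.symm
  obtain ⟨b1, b2⟩ := H_bounds u κ
  rw [← hH] at b1 b2
  have hH3 : Real.exp (3 / 10 * Y) ≤ H := by
    calc Real.exp (3 / 10 * Y) ≤ Real.exp (-(0.6 * Y) + (Y - 1 / 4)) :=
          Real.exp_le_exp.2 (by norm_num; linarith)
      _ = Real.exp (-(0.6 * Y)) * Real.exp (Y - 1 / 4) := Real.exp_add _ _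
      _ ≤ κ * Real.exp u := mul_le_mul hκ1 (Real.exp_le_exp.2 hu1) (Real.exp_pos _).le hκ.le
      _ ≤ H := b1
  have hH1 : 1 ≤ H := by
    refine le_trans ?_ hH3
    exact Real.one_le_exp (by positivity)
  have hH0 : 0 < H := by linarith
  have hq14 := exp_quarter
  have hH4 : κ * Real.exp Y ≤ 2 * H := by
    have e1 : Real.exp Y = Real.exp (Y - 1 / 4) * Real.exp (1 / 4) := by
      rw [← Real.exp_add]; congr 1; ring
    have e2 : Real.exp Y ≤ Real.exp u * (3 / 2) := by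
      rw [e1]
      exact mul_le_mul (Real.exp_le_exp.2 hu1) hq14 (Real.exp_pos _).le (Real.exp_pos _).le
    calc κ * Real.exp Y ≤ κ * (Real.exp u * (3 / 2)) := mul_le_mul_of_nonneg_left e2 hκ.le
      _ = (3 / 2) * (κ * Real.exp u) := by ring
      _ ≤ 2 * H := by linarith
  have hH5 : H ≤ 3 / 2 * (κ * Real.exp Y) := by
    have e1 : Real.exp (u + κ) ≤ Real.exp Y * (3 / 2) := by
      calc Real.exp (u + κ) ≤ Real.exp (Y + 1 / 4) := Real.exp_le_exp.2 hu2
        _ = Real.exp Y * Real.exp (1 / 4) := Real.exp_add _ _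
        _ ≤ Real.exp Y * (3 / 2) := mul_le_mul_of_nonneg_left hq14 hexpY.le
    calc H ≤ κ * Real.exp (u + κ) := b2
      _ ≤ κ * (Real.exp Y * (3 / 2)) := mul_le_mul_of_nonneg_left e1 hκ.le
      _ = 3 / 2 * (κ * Real.exp Y) := by ring
  -- the level
  obtain ⟨Z, hZ⟩ : ∃ Z : ℝ, Z = (X : ℝ) ^ (δ / 2) := ⟨_, rfl⟩
  have hZ0 : 0 < Z := by rw [hZ]; exact Real.rpow_pos_of_pos hX0 _
  have hZ1 : Z ≤ Real.exp (δ / 2 * Y) := by
    have e1 : (X : ℝ) ≤ Real.exp Y := hX1.trans (Real.exp_le_exp.2 (by linarith))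
    calc Z ≤ Real.exp Y ^ (δ / 2) := by
          rw [hZ]; exact Real.rpow_le_rpow hX0.le e1 (by positivity)
      _ = Real.exp (δ / 2 * Y) := by rw [← Real.exp_mul, mul_comm]
  have hZZ : Z * Z ≤ Real.exp (δ * Y) := by
    calc Z * Z ≤ Real.exp (δ / 2 * Y) * Real.exp (δ / 2 * Y) :=
          mul_le_mul hZ1 hZ1 hZ0.le (Real.exp_pos _).le
      _ = Real.exp (δ * Y) := by rw [← Real.exp_add]; congr 1; ring
  have hT : ∑ D ∈ (PX X).powerset.filter (fun D : Finset ℕ => ∏ p ∈ D, (p : ℝ) ≤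
      (X : ℝ) ^ (δ / 2)), (K : ℝ) ^ D.card ≤ C₁ * Real.exp (δ * Y) := by
    rw [← hZ]
    refine (sum_T K X Z hZ0).trans ?_
    rw [← hC₁]
    exact mul_le_mul_of_nonneg_left hZZ hC₁0.le
  have hT0 : 0 ≤ ∑ D ∈ (PX X).powerset.filter (fun D : Finset ℕ => ∏ p ∈ D, (p : ℝ) ≤
      (X : ℝ) ^ (δ / 2)), (K : ℝ) ^ D.card := sum_nonneg fun _ _ => by positivity
  -- the target
  obtain ⟨R, hR⟩ : ∃ R : ℝ, R = H / Y ^ (A + 1) := ⟨_, rfl⟩
  have hYA : 0 < Y ^ (A + 1) := by positivity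
  have hR0 : 0 < R := by rw [hR]; positivity
  have hG : R ≤ (Wu u κ).H / Wm X / Real.log X ^ A := by
    rw [hR, hHd, div_div]
    apply div_le_div_of_nonneg_left hH0.le (by positivity)
    calc (Wm X : ℝ) * Real.log X ^ A ≤ Y * Y ^ A :=
          mul_le_mul (hW.trans hlog2) (pow_le_pow_left₀ hlog0.le hlog2 A) (by positivity) hY0.le
      _ = Y ^ (A + 1) := by ring
  have hδe : Real.exp (2 / 10 * Y) * Real.exp (δ * Y) ≤ H := by
    refine le_trans ?_ hH3
    rw [← Real.exp_add]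
    exact Real.exp_le_exp.2 (by nlinarith)
  have hHy : (Wu u κ).P = th u κ 1 0 / u := rfl
  have hu0 : 0 < u := by linarith
  have hP0 : 0 ≤ (Wu u κ).P := div_nonneg (th_nonneg _ _ _ _) hu0.le
  refine ⟨⟨?_, hP0, ?_, ?_⟩, ?_⟩
  · rw [hHd]; exact hH0
  · -- the window is in `[X, 2X)`
    rw [Wu_Q]
    intro n hn
    rw [mem_Ioc] at hn
    rw [mem_Ico]
    have e1 : X ≤ ⌊Real.exp u⌋₊ := by
      rw [hX]
      exact Nat.floor_mono (Real.exp_le_exp.2 hu1)
    refine ⟨by omega, ?_⟩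
    have e2 : (n : ℝ) ≤ Real.exp (u + κ) := (Nat.le_floor_iff (Real.exp_pos _).le).1 hn.2
    have e3 : Real.exp (u + κ) ≤ Real.exp (Y - 1 / 4) * (Real.exp (1 / 4) * Real.exp (1 / 4)) := by
      rw [← Real.exp_add, ← Real.exp_add]
      exact Real.exp_le_exp.2 (by linarith)
    have e4 : Real.exp (1 / 4) * Real.exp (1 / 4) < 18 / 10 := by
      have h1 : (Real.exp (1 / 4) * Real.exp (1 / 4)) ^ 2 = Real.exp 1 := by
        rw [← Real.exp_add, ← Real.exp_nat_mul]
        norm_num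
      have h2 := Real.exp_one_lt_d9
      by_contra hn
      have h3 : (18 / 10 : ℝ) ^ 2 ≤ (Real.exp (1 / 4) * Real.exp (1 / 4)) ^ 2 :=
        pow_le_pow_left₀ (by norm_num) (not_lt.1 hn) 2
      rw [h1] at h3
      norm_num at h3
      linarith
    have e5 : Real.exp (Y - 1 / 4) * (Real.exp (1 / 4) * Real.exp (1 / 4)) ≤
        (X + 1) * (18 / 10) := by
      refine mul_le_mul hX2.le e4.le (by positivity) (by positivity)
    have e6 : (n : ℝ) < ((2 * X : ℕ) : ℝ) := by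
      push_cast
      linarith
    exact_mod_cast e6
  · intro b hb
    refine ⟨⟨fun _ => 2, eqd_int u κ (δ / 2) hκ.le X b hb, ?_⟩, ?_⟩
    · -- integers
      refine le_trans ?_ hG
      rw [← sum_mul, hR, le_div_iff₀ hYA]
      calc _ ≤ C₁ * Real.exp (δ * Y) * 2 * Y ^ (A + 1) :=
            mul_le_mul_of_nonneg_right (mul_le_mul_of_nonneg_right hT (by norm_num)) hYA.le
        _ = (2 * C₁ * Y ^ (A + 1)) * Real.exp (δ * Y) := by ring
        _ ≤ Real.exp (2 / 10 * Y) * Real.exp (δ * Y) :=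
            mul_le_mul_of_nonneg_right g1 (Real.exp_pos _).le
        _ ≤ H := hδe
    · -- primes
      intro a₀ ha₀
      unfold BB at ha₀
      rw [mem_filter, mem_Icc] at ha₀
      obtain ⟨⟨ha1, ha2⟩, hba⟩ := ha₀
      have ha2r : (a₀ : ℝ) ≤ Λ * Y := by
        have : (a₀ : ℝ) ≤ ⌊Λ * Real.log X⌋₊ := by exact_mod_cast ha2
        refine this.trans ((Nat.floor_le (by positivity)).trans ?_)
        exact mul_le_mul_of_nonneg_left hlog2 hΛ.le
      -- the worst class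
      obtain ⟨α, hα1, hα2⟩ := exists_worst
        (fun q a => |th u κ q a - th u κ 1 0 / (Nat.totient q : ℝ)|) (fun q a => by
          rw [th_mod])
      obtain ⟨M, hM⟩ : ∃ M : ℕ → ℝ, M = fun q =>
        |th u κ q (α q) - th u κ 1 0 / (Nat.totient q : ℝ)| := ⟨_, rfl⟩
      have hM0 : ∀ q, 0 ≤ M q := fun q => by rw [hM]; exact abs_nonneg _
      have hMc : ∀ q c : ℕ, 1 ≤ q → c.Coprime q →
          |th u κ q c - th u κ 1 0 / (Nat.totient q : ℝ)| ≤ M q := by
        intro q c hq hc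
        rw [hM]
        exact hα2 q c hq hc
      have hXu : X ≤ ⌊Real.exp u⌋₊ := by
        rw [hX]
        exact Nat.floor_mono (Real.exp_le_exp.2 hu1)
      refine ⟨ErP u κ (δ / 2) X a₀ M, eqd_prime u κ (δ / 2) hκ.le (by linarith) X b a₀ hb hXu ha1
        hba M hM0 hMc, ?_⟩
      refine le_trans ?_ hG
      -- the sum
      obtain ⟨F, hF⟩ : ∃ F : Finset (Finset ℕ), F = (PX X).powerset.filter
        (fun D : Finset ℕ => ∏ p ∈ D, (p : ℝ) ≤ (X : ℝ) ^ (δ / 2)) := ⟨_, rfl⟩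
      rw [← hF] at hT hT0 ⊢
      have hFm : ∀ D ∈ F, (∀ p ∈ D, p ∈ PX X) ∧ ∏ p ∈ D, (p : ℝ) ≤ (X : ℝ) ^ (δ / 2) := by
        intro D hD
        rw [hF, mem_filter, mem_powerset] at hD
        exact ⟨fun p hp => hD.1 hp, hD.2⟩
      have hFp : ∀ D ∈ F, ∀ p ∈ D, p.Prime := fun D hD p hp =>
        (Pool.Agent.H96R2.EQP.PX_prime ((hFm D hD).1 p hp)).1
      have hFN : ∀ D ∈ F, Wm X * ∏ p ∈ D, p ≤ Gc δ Y := by
        intro D hD
        unfold Gc
        apply Nat.le_floor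
        push_cast
        have h1 := (hFm D hD).2
        rw [← hZ] at h1
        have h2 : (Wm X : ℝ) ≤ Real.exp (δ / 2 * Y) := by
          rw [pow_one, one_mul] at g4
          linarith
        calc (Wm X : ℝ) * ∏ p ∈ D, (p : ℝ) ≤ Real.exp (δ / 2 * Y) * Real.exp (δ / 2 * Y) :=
              mul_le_mul h2 (h1.trans hZ1) (prod_nonneg fun _ _ => Nat.cast_nonneg _)
                (Real.exp_pos _).le
          _ = Real.exp (δ * Y) := by rw [← Real.exp_add]; congr 1; ring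
      have hsplit : ∑ D ∈ F, (K : ℝ) ^ D.card * ErP u κ (δ / 2) X a₀ M D =
          (∑ D ∈ F, (K : ℝ) ^ D.card) * (a₀ + κ * (H + 1)) +
          ∑ D ∈ F, (K : ℝ) ^ D.card * M (Wm X * ∏ p ∈ D, p) := by
        rw [sum_mul, ← sum_add_distrib]
        apply sum_congr rfl
        intro D hD
        unfold ErP
        rw [if_pos (hFm D hD).2, hHd]
        ring
      rw [hsplit]
      have hs1 := Pool.Agent.H96R2.EQP.sum_inj K (Wm X) (Gc δ Y) hWpos F hFp hFN M hM0
      obtain ⟨L, hL⟩ : ∃ L : ℝ, L = Y ^ (A + c + 4) := ⟨_, rfl⟩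
      have hL0 : 0 < L := by rw [hL]; positivity
      have hδH : Real.exp (δ * Y) ≤ H := by
        refine le_trans (Real.exp_le_exp.2 ?_) hH3
        nlinarith
      have hs2 := weighted ((K : ℝ) + 1) (by linarith) (Gc δ Y) M L (10 * Y * H) hL0 hM0 (by
        intro q hq
        rw [mem_Icc] at hq
        rw [hM]
        refine triv u κ Y H hH hκ hY0 (by linarith) hH1 q (α q) hq.1 ?_
        have : (q : ℝ) ≤ Real.exp (δ * Y) := by
          have h1 : (q : ℝ) ≤ (Gc δ Y : ℝ) := by exact_mod_cast hq.2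
          exact h1.trans (Nat.floor_le (Real.exp_pos _).le)
        linarith) (by positivity)
      have hBV' : ∑ q ∈ Icc 1 (Gc δ Y), M q ≤ κ * Real.exp Y / Y ^ (2 * A + c + 6) := by
        have := hBV α hα1
        rw [hM]
        exact this
      have hk' : ∑ q ∈ Icc 1 (Gc δ Y), (((K : ℝ) + 1) ^ 2) ^ q.primeFactors.card /
          (Nat.totient q : ℝ) ≤ (2 * Y) ^ c := by
        refine (hk (Gc δ Y)).trans ?_
        have hG1 : 1 ≤ Gc δ Y := by
          unfold Gc
          apply Nat.le_floor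
          rw [Nat.cast_one]
          exact Real.one_le_exp (by positivity)
        have hG1' : (1 : ℝ) ≤ (Gc δ Y : ℝ) := by exact_mod_cast hG1
        have h1 : Real.log (Gc δ Y) ≤ δ * Y := by
          have h2 : (Gc δ Y : ℝ) ≤ Real.exp (δ * Y) := Nat.floor_le (Real.exp_pos _).le
          have h3 := Real.log_le_log (by linarith) h2
          rwa [Real.log_exp] at h3
        have h0 : 0 ≤ Real.log (Gc δ Y) := Real.log_nonneg hG1'
        exact pow_le_pow_left₀ (by linarith) (by nlinarith) c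
      -- the four estimates
      have t1 : C₁ * Real.exp (δ * Y) * (Λ * Y) ≤ R / 4 := by
        rw [hR, div_div, le_div_iff₀ (by positivity)]
        calc C₁ * Real.exp (δ * Y) * (Λ * Y) * (Y ^ (A + 1) * 4) =
            (4 * C₁ * Λ * Y ^ (A + 2)) * Real.exp (δ * Y) := by ring
          _ ≤ Real.exp (2 / 10 * Y) * Real.exp (δ * Y) :=
              mul_le_mul_of_nonneg_right g2 (Real.exp_pos _).le
          _ ≤ H := hδe
      have t2 : C₁ * Real.exp (δ * Y) * (κ * (2 * H)) ≤ R / 4 := by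
        rw [hR, div_div, le_div_iff₀ (by positivity)]
        calc C₁ * Real.exp (δ * Y) * (κ * (2 * H)) * (Y ^ (A + 1) * 4) =
            (8 * C₁ * Y ^ (A + 1)) * Real.exp (δ * Y) * κ * H := by ring
          _ ≤ Real.exp (2 / 10 * Y) * Real.exp (δ * Y) * Real.exp (-(Y / 4)) * H := by
              refine mul_le_mul_of_nonneg_right ?_ hH0.le
              exact mul_le_mul (mul_le_mul_of_nonneg_right g3 (Real.exp_pos _).le) hκ2 hκ.le
                (by positivity)
          _ ≤ 1 * H := by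
              refine mul_le_mul_of_nonneg_right ?_ hH0.le
              rw [← Real.exp_add, ← Real.exp_add, ← Real.exp_zero]
              exact Real.exp_le_exp.2 (by nlinarith)
          _ = H := one_mul H
      have t3 : L * (κ * Real.exp Y / Y ^ (2 * A + c + 6)) ≤ R / 4 := by
        have e1 : L * (κ * Real.exp Y / Y ^ (2 * A + c + 6)) = κ * Real.exp Y / Y ^ (A + 2) := by
          rw [hL, show 2 * A + c + 6 = (A + c + 4) + (A + 2) by ring, pow_add Y (A + c + 4)]
          field_simp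
        rw [e1, hR, div_div, div_le_div_iff₀ (by positivity) (by positivity)]
        calc κ * Real.exp Y * (Y ^ (A + 1) * 4) ≤ 2 * H * (Y ^ (A + 1) * 4) :=
              mul_le_mul_of_nonneg_right hH4 (by positivity)
          _ = H * Y ^ (A + 1) * 8 := by ring
          _ ≤ H * Y ^ (A + 1) * Y := mul_le_mul_of_nonneg_left (by linarith) (by positivity)
          _ = H * Y ^ (A + 2) := by ring
      have t4 : 10 * Y * H / L * (2 * Y) ^ c ≤ R / 4 := by
        have e1 : 10 * Y * H / L * (2 * Y) ^ c = 10 * 2 ^ c * H / Y ^ (A + 3) := by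
          rw [hL, show A + c + 4 = c + 1 + (A + 3) by ring, pow_add Y (c + 1), mul_pow]
          field_simp
          ring
        rw [e1, hR, div_div, div_le_div_iff₀ (by positivity) (by positivity)]
        calc 10 * 2 ^ c * H * (Y ^ (A + 1) * 4) = (40 * 2 ^ c) * (H * Y ^ (A + 1)) := by ring
          _ ≤ Y * (H * Y ^ (A + 1)) := mul_le_mul_of_nonneg_right g6 (by positivity)
          _ = H * Y ^ (A + 2) := by ring
          _ ≤ H * Y ^ (A + 3) :=
              mul_le_mul_of_nonneg_left (pow_le_pow_right₀ (by linarith) (by omega)) hH0.le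
      have t5 : (∑ D ∈ F, (K : ℝ) ^ D.card) * (a₀ + κ * (H + 1)) ≤ R / 4 + R / 4 := by
        calc (∑ D ∈ F, (K : ℝ) ^ D.card) * (a₀ + κ * (H + 1))
            ≤ C₁ * Real.exp (δ * Y) * (Λ * Y + κ * (2 * H)) := by
              refine mul_le_mul hT (add_le_add ha2r ?_) (by positivity) (by positivity)
              exact mul_le_mul_of_nonneg_left (by linarith) hκ.le
          _ = C₁ * Real.exp (δ * Y) * (Λ * Y) + C₁ * Real.exp (δ * Y) * (κ * (2 * H)) := by ring
          _ ≤ R / 4 + R / 4 := add_le_add t1 t2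
      have t6 : L * ∑ q ∈ Icc 1 (Gc δ Y), M q ≤ R / 4 :=
        (mul_le_mul_of_nonneg_left hBV' hL0.le).trans t3
      have t7 : 10 * Y * H / L * ∑ q ∈ Icc 1 (Gc δ Y), (((K : ℝ) + 1) ^ 2) ^ q.primeFactors.card /
          (Nat.totient q : ℝ) ≤ R / 4 :=
        (mul_le_mul_of_nonneg_left hk' (by positivity)).trans t4
      linarith
  · -- the number of primes
    rw [hHd, hHy]
    have e1 : c₀ / 4 * H ≤ c₀ / 4 * (3 / 2 * (κ * Real.exp Y)) :=
      mul_le_mul_of_nonneg_left hH5 (by positivity)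
    have e2 : c₀ / 4 * (3 / 2 * (κ * Real.exp Y)) ≤ 3 / 8 * th u κ 1 0 := by nlinarith
    have hth0 := th_nonneg u κ 1 0
    have e3 : 3 / 8 * th u κ 1 0 ≤ th u κ 1 0 / u * Real.log X := by
      have e5 : th u κ 1 0 / u * Real.log X = th u κ 1 0 * Real.log X / u := by ring
      rw [e5, le_div_iff₀ hu0]
      have e4 : 3 / 8 * u ≤ Real.log X := by linarith
      calc 3 / 8 * th u κ 1 0 * u = th u κ 1 0 * (3 / 8 * u) := by ring
        _ ≤ th u κ 1 0 * Real.log X := mul_le_mul_of_nonneg_left e4 hth0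
    linarith

end Pool.Agent.L7h37.BP
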