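import Pool.Agent.L7h18.BP.Eng
import Pool.Agent.W978.HR.RM
import Pool.Agent.H488R2.PPM.Mer
import Pool.Agent.H325R2.PPWtx
import Pool.Agent.H363R2.PPCnt

/-!
# Project BP of helper18: moments of the number of rough positions in a window (`S_RMW`)
-/

set_option autoImplicit false

open Finset

namespace Pool.Agent.L7h37.BP

open Pool.Agent.H361R2.PP Pool.Agent.W978.HR Pool.Agent.L7h18.BP
open Pool.Agent.W70.HR (Bw rU)

theorem rmw_of (hCnt : Cnt) (hMer : Mer) : S_RMW := by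
  classical
  intro m Λ δ hΛ hδ hδ8
  obtain ⟨X1, h1⟩ := hCnt 1 Λ Λ one_pos hΛ hΛ
  obtain ⟨CM, hCM, h2⟩ := hMer
  obtain ⟨X2, h2⟩ := h2 δ hδ (by linarith)
  set D : ℝ := max 1 (2 * Λ * CM / δ) with hD
  have hD1 : 1 ≤ D := le_max_left _ _
  refine ⟨(m : ℝ) ^ m * (2 * ((m + 1) * D ^ m)) + 1, max (max X1 X2) 3, by positivity, ?_⟩
  intro X hX ω b hH hb hU
  have hX1 : X1 ≤ X := (le_max_left _ _).trans ((le_max_left _ _).trans hX)
  have hX2 : X2 ≤ X := (le_max_right _ _).trans ((le_max_left _ _).trans hX)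
  have hX3 : 3 ≤ X := (le_max_right _ _).trans hX
  have hL : 0 < Real.log X := Real.log_pos (by exact_mod_cast (by omega : 1 < X))
  obtain ⟨hV0, hV1, -⟩ := h2 X hX2
  set V : ℝ := VV δ X with hV
  have hV0' : 0 < V := hV0
  have hV1' : V * ((Nat.totient (Wm X) : ℝ) / Wm X) * (δ * Real.log X) ≤ CM := hV1
  set f : ℝ := (Nat.totient (Wm X) : ℝ) / Wm X with hf
  have hf0 : 0 ≤ f := by positivity
  have hcard : ((Bw Λ X b).card : ℝ) ≤ 2 * (Λ * Real.log X * f) := by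
    have h3 := h1 X hX1 b 0 (Λ * Real.log X) le_rfl (by linarith) le_rfl
    have h4 : (BB X b ⌊Λ * Real.log X⌋₊).filter
        (fun a : ℕ => (0 : ℝ) < a ∧ (a : ℝ) ≤ Λ * Real.log X) = Bw Λ X b := by
      unfold Bw
      refine filter_true_of_mem fun a ha => ?_
      unfold BB at ha
      rw [mem_filter, mem_Icc] at ha
      refine ⟨by exact_mod_cast ha.1.1, ?_⟩
      exact (Nat.cast_le.2 ha.1.2).trans (Nat.floor_le (by positivity))
    rw [h4] at h3
    have h5 := (abs_le.1 h3).2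
    linarith
  have hBV : ((Bw Λ X b).card : ℝ) * V ≤ D := by
    refine le_trans ?_ (le_max_right _ _)
    rw [le_div_iff₀ hδ]
    calc ((Bw Λ X b).card : ℝ) * V * δ ≤ 2 * (Λ * Real.log X * f) * V * δ := by gcongr
      _ = 2 * Λ * (V * f * (δ * Real.log X)) := by ring
      _ ≤ 2 * Λ * CM := by gcongr
  have hXW : 0 ≤ ω.H / Wm X := by positivity
  have hS : ∑ U ∈ (Bw Λ X b).powerset.filter (fun U => U.card ≤ m), ∑ n ∈ WI ω X b, rU δ X U n ≤
      2 * (ω.H / Wm X) * ((m + 1) * D ^ m) := by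
    calc ∑ U ∈ (Bw Λ X b).powerset.filter (fun U => U.card ≤ m), ∑ n ∈ WI ω X b, rU δ X U n
        ≤ ∑ U ∈ (Bw Λ X b).powerset.filter (fun U => U.card ≤ m), 2 * WOm ω δ X U.card := by
          refine sum_le_sum fun U hU' => ?_
          rw [mem_filter, mem_powerset] at hU'
          exact hU U hU'.1 hU'.2
      _ = 2 * (ω.H / Wm X) *
            ∑ U ∈ (Bw Λ X b).powerset.filter (fun U => U.card ≤ m), V ^ U.card := by
          rw [mul_sum]
          refine sum_congr rfl fun U _ => ?_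
          unfold WOm
          rw [← hV]
          ring
      _ ≤ 2 * (ω.H / Wm X) * ((m + 1) * D ^ m) := by
          refine mul_le_mul_of_nonneg_left ?_ (by positivity)
          exact sum_pow_card _ m V D hV0'.le hD1 hBV
  calc ∑ n ∈ WI ω X b, (∑ a ∈ Bw Λ X b, rg (P1 (HH X) (JJ δ X)) a n) ^ m
      ≤ ∑ n ∈ WI ω X b, (m : ℝ) ^ m *
          ∑ U ∈ (Bw Λ X b).powerset.filter (fun U => U.card ≤ m), rU δ X U n :=
        sum_le_sum fun n _ => sum_rg_pow _ δ X m n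
    _ = (m : ℝ) ^ m * ∑ U ∈ (Bw Λ X b).powerset.filter (fun U => U.card ≤ m),
          ∑ n ∈ WI ω X b, rU δ X U n := by
        rw [← mul_sum, sum_comm]
    _ ≤ (m : ℝ) ^ m * (2 * (ω.H / Wm X) * ((m + 1) * D ^ m)) := by gcongr
    _ = (m : ℝ) ^ m * (2 * ((m + 1) * D ^ m)) * (ω.H / Wm X) := by ring
    _ ≤ ((m : ℝ) ^ m * (2 * ((m + 1) * D ^ m)) + 1) * (ω.H / Wm X) := by
        gcongr
        linarith

theorem s_RMW : S_RMW :=
  rmw_of Pool.Agent.H363R2.PPCnt.cnt (Pool.Agent.H488R2.mer Pool.Agent.H325R2.wtx)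

end Pool.Agent.L7h37.BP
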