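import Pool.Agent.L7h37.BP.EqwA

/-!
# Project BP of helper18: equidistribution in a window (`S_EQW`)
-/

set_option autoImplicit false

open Finset Filter

namespace Pool.Agent.L7h37.BP

open Pool.Agent.H361R2.PP Pool.Agent.L7h18.BP
open Pool.Agent.L7h88.BW (th)

/-- the length of the window -/
theorem H_bounds (u κ : ℝ) : κ * Real.exp u ≤ Real.exp (u + κ) - Real.exp u ∧
    Real.exp (u + κ) - Real.exp u ≤ κ * Real.exp (u + κ) := by
  have h1 := Real.add_one_le_exp κ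
  have h2 := Real.add_one_le_exp (-κ)
  have h3 : Real.exp (u + κ) = Real.exp u * Real.exp κ := Real.exp_add _ _
  have h4 : Real.exp u = Real.exp (u + κ) * Real.exp (-κ) := by
    rw [← Real.exp_add]
    congr 1
    ring
  have h5 := Real.exp_pos u
  have h6 := Real.exp_pos (u + κ)
  constructor
  · rw [h3]
    nlinarith
  · nlinarith

theorem floor_diff (u κ : ℝ) : |((⌊Real.exp (u + κ)⌋₊ : ℝ) - ⌊Real.exp u⌋₊) -
    (Real.exp (u + κ) - Real.exp u)| ≤ 1 := by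
  have h1 := Nat.floor_le (Real.exp_pos u).le
  have h2 := Nat.lt_floor_add_one (Real.exp u)
  have h3 := Nat.floor_le (Real.exp_pos (u + κ)).le
  have h4 := Nat.lt_floor_add_one (Real.exp (u + κ))
  rw [abs_le]
  constructor <;> linarith

theorem exp_quarter : Real.exp (1 / 4) ≤ 3 / 2 := by
  have h1 : Real.exp (1 / 4) ^ 4 = Real.exp 1 := by
    rw [← Real.exp_nat_mul]
    norm_num
  have h2 := Real.exp_one_lt_d9
  by_contra hn
  have h3 : (3 / 2 : ℝ) ^ 4 ≤ Real.exp (1 / 4) ^ 4 :=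
    pow_le_pow_left₀ (by norm_num) (not_le.1 hn).le 4
  rw [h1] at h3
  norm_num at h3
  linarith

/-- weighted number of the sets `D` -/
theorem sum_T (K X : ℕ) (Z : ℝ) (hZ : 0 < Z) :
    ∑ D ∈ (PX X).powerset.filter (fun D : Finset ℕ => ∏ p ∈ D, (p : ℝ) ≤ Z), (K : ℝ) ^ D.card ≤
      ((K : ℝ) + 1) ^ (K + 1) * (Z * Z) := by
  have hK : (0 : ℝ) ≤ K := Nat.cast_nonneg _
  have hPX : ∀ p ∈ PX X, p.Prime := by
    intro p hp
    rw [PX, mem_filter] at hp
    exact hp.2.1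
  calc ∑ D ∈ (PX X).powerset.filter (fun D : Finset ℕ => ∏ p ∈ D, (p : ℝ) ≤ Z), (K : ℝ) ^ D.card
      ≤ ∑ D ∈ (PX X).powerset.filter (fun D : Finset ℕ => ∏ p ∈ D, (p : ℝ) ≤ Z),
          ((K : ℝ) + 1) ^ (K + 1) * Z := by
        apply sum_le_sum
        intro D hD
        rw [mem_filter, mem_powerset] at hD
        have h1 : (K : ℝ) ^ D.card ≤ ((K : ℝ) + 1) ^ D.card :=
          pow_le_pow_left₀ hK (by linarith) _
        have h2 := Pool.Agent.H20R2.EQI.pow_card_le ((K : ℝ) + 1) (by linarith) 1 (K + 1)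
          (fun p hp => by rw [Real.rpow_one]; exact_mod_cast hp) zero_le_one D
          (fun p hp => (hPX p (hD.1 hp)).one_le)
        rw [Real.rpow_one] at h2
        exact h1.trans (h2.trans (mul_le_mul_of_nonneg_left hD.2 (by positivity)))
    _ = (((PX X).powerset.filter (fun D : Finset ℕ => ∏ p ∈ D, (p : ℝ) ≤ Z)).card : ℝ) *
          (((K : ℝ) + 1) ^ (K + 1) * Z) := by rw [sum_const, nsmul_eq_mul]
    _ ≤ Z * (((K : ℝ) + 1) ^ (K + 1) * Z) := by
        apply mul_le_mul_of_nonneg_right _ (by positivity)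
        refine (Pool.Agent.H20R2.EQI.card_D (PX X) hPX _).trans ?_
        rw [max_eq_left hZ.le]
    _ = ((K : ℝ) + 1) ^ (K + 1) * (Z * Z) := by ring

/-- the sum with weights, from the sum without weights and the trivial bound -/
theorem weighted (K : ℝ) (hK : 1 ≤ K) (N : ℕ) (M : ℕ → ℝ) (L V : ℝ) (hL : 0 < L)
    (hM0 : ∀ q, 0 ≤ M q) (hMV : ∀ q ∈ Icc 1 N, M q ≤ V / (Nat.totient q : ℝ)) (hV : 0 ≤ V) :
    ∑ q ∈ Icc 1 N, K ^ q.primeFactors.card * M q ≤ L * ∑ q ∈ Icc 1 N, M q +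
      V / L * ∑ q ∈ Icc 1 N, (K ^ 2) ^ q.primeFactors.card / (Nat.totient q : ℝ) := by
  rw [mul_sum, mul_sum, ← sum_add_distrib]
  refine sum_le_sum fun q hq => ?_
  have hKω : 0 < K ^ q.primeFactors.card := by positivity
  have hq' := hMV q hq
  rcases le_total (K ^ q.primeFactors.card) L with h | h
  · have h1 : K ^ q.primeFactors.card * M q ≤ L * M q := mul_le_mul_of_nonneg_right h (hM0 q)
    have h2 : 0 ≤ V / L * ((K ^ 2) ^ q.primeFactors.card / (Nat.totient q : ℝ)) := by positivity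
    linarith
  · have h1 : K ^ q.primeFactors.card * M q ≤
        V / L * ((K ^ 2) ^ q.primeFactors.card / (Nat.totient q : ℝ)) := by
      calc K ^ q.primeFactors.card * M q
          ≤ K ^ q.primeFactors.card * (V / (Nat.totient q : ℝ)) :=
            mul_le_mul_of_nonneg_left hq' hKω.le
        _ ≤ (K ^ q.primeFactors.card * (K ^ q.primeFactors.card / L)) *
            (V / (Nat.totient q : ℝ)) := by
            apply mul_le_mul_of_nonneg_right _ (by positivity)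
            have : 1 ≤ K ^ q.primeFactors.card / L := by rw [one_le_div hL]; exact h
            calc K ^ q.primeFactors.card = K ^ q.primeFactors.card * 1 := (mul_one _).symm
              _ ≤ _ := mul_le_mul_of_nonneg_left this hKω.le
        _ = V / L * ((K ^ 2) ^ q.primeFactors.card / (Nat.totient q : ℝ)) := by
            rw [← pow_mul, mul_comm 2, pow_mul]; ring
    have h2 : 0 ≤ L * M q := mul_nonneg hL.le (hM0 q)
    linarith

theorem pc_le (u κ : ℝ) (hκ : 0 ≤ κ) (q c : ℕ) :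
    pc u κ q c ≤ Real.exp (u + κ) - Real.exp u + 1 := by
  have h1 : pc u κ q c ≤ (((Ioc ⌊Real.exp u⌋₊ ⌊Real.exp (u + κ)⌋₊).card : ℕ) : ℝ) := by
    unfold pc
    exact_mod_cast card_filter_le _ _
  have hmono : ⌊Real.exp u⌋₊ ≤ ⌊Real.exp (u + κ)⌋₊ :=
    Nat.floor_mono (Real.exp_le_exp.2 (by linarith))
  rw [Nat.card_Ioc, Nat.cast_sub hmono] at h1
  have h2 := (abs_le.1 (floor_diff u κ)).2
  linarith

theorem pc_le_class (u κ : ℝ) (hκ : 0 ≤ κ) (q c : ℕ) (hq : 1 ≤ q) :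
    pc u κ q c ≤ (Real.exp (u + κ) - Real.exp u + 1) / q + 1 := by
  have hmono : ⌊Real.exp u⌋₊ ≤ ⌊Real.exp (u + κ)⌋₊ :=
    Nat.floor_mono (Real.exp_le_exp.2 (by linarith))
  have h1 : pc u κ q c ≤ (((Ioc ⌊Real.exp u⌋₊ ⌊Real.exp (u + κ)⌋₊).filter
      (fun n => n ≡ c [MOD q])).card : ℝ) := by
    unfold pc
    have : ((Ioc ⌊Real.exp u⌋₊ ⌊Real.exp (u + κ)⌋₊).filter
        (fun l => l.Prime ∧ l ≡ c [MOD q])).card ≤
        ((Ioc ⌊Real.exp u⌋₊ ⌊Real.exp (u + κ)⌋₊).filter (fun n => n ≡ c [MOD q])).card := by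
      apply card_le_card
      intro p hp
      rw [mem_filter] at hp ⊢
      exact ⟨hp.1, hp.2.2⟩
    exact_mod_cast this
  have h2 := (abs_le.1 (cls _ _ q c hmono (by omega))).2
  have h3 := (abs_le.1 (floor_diff u κ)).2
  have hq0 : (0 : ℝ) < q := by exact_mod_cast hq
  have h4 : ((⌊Real.exp (u + κ)⌋₊ : ℝ) - ⌊Real.exp u⌋₊) / q ≤
      (Real.exp (u + κ) - Real.exp u + 1) / q :=
    div_le_div_of_nonneg_right (by linarith) hq0.le
  linarith

/-- trivial bound of the error -/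
theorem triv (u κ Y H : ℝ) (hH : H = Real.exp (u + κ) - Real.exp u) (hκ : 0 < κ) (hY : 0 < Y)
    (huY : u + κ ≤ 2 * Y) (hH1 : 1 ≤ H) (q c : ℕ) (hq : 1 ≤ q) (hqH : (q : ℝ) ≤ H) :
    |th u κ q c - th u κ 1 0 / (Nat.totient q : ℝ)| ≤ 10 * Y * H / (Nat.totient q : ℝ) := by
  have hφ : (0 : ℝ) < Nat.totient q := by exact_mod_cast Nat.totient_pos.mpr (by omega)
  have hφq : (Nat.totient q : ℝ) ≤ q := by exact_mod_cast Nat.totient_le q
  have hq0 : (0 : ℝ) < q := by exact_mod_cast hq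
  have h1 : th u κ q c ≤ 6 * Y * H / (Nat.totient q : ℝ) := by
    have e1 := pc_le_class u κ hκ.le q c hq
    rw [← hH] at e1
    have e2 : (H + 1) / q + 1 ≤ 3 * H / (Nat.totient q : ℝ) := by
      have e3 : (H + 1) / q + 1 ≤ 3 * H / q := by
        rw [div_add_one hq0.ne']
        exact div_le_div_of_nonneg_right (by linarith) hq0.le
      exact e3.trans (div_le_div_of_nonneg_left (by linarith) hφ hφq)
    have e0 : 0 ≤ pc u κ q c := by unfold pc; positivity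
    calc th u κ q c ≤ (u + κ) * pc u κ q c := (th_bounds u κ q c).2
      _ ≤ (2 * Y) * (3 * H / (Nat.totient q : ℝ)) :=
          mul_le_mul huY (e1.trans e2) e0 (by positivity)
      _ = 6 * Y * H / (Nat.totient q : ℝ) := by ring
  have h2 : th u κ 1 0 / (Nat.totient q : ℝ) ≤ 4 * Y * H / (Nat.totient q : ℝ) := by
    refine div_le_div_of_nonneg_right ?_ hφ.le
    have e1 := pc_le u κ hκ.le 1 0
    rw [← hH] at e1
    have e0 : 0 ≤ pc u κ 1 0 := by unfold pc; positivity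
    calc th u κ 1 0 ≤ (u + κ) * pc u κ 1 0 := (th_bounds u κ 1 0).2
      _ ≤ (2 * Y) * (2 * H) := mul_le_mul huY (by linarith) e0 (by positivity)
      _ = 4 * Y * H := by ring
  have h3 := th_nonneg u κ q c
  have h4 : 0 ≤ th u κ 1 0 / (Nat.totient q : ℝ) := div_nonneg (th_nonneg _ _ _ _) hφ.le
  have h5 : 10 * Y * H / (Nat.totient q : ℝ) = 6 * Y * H / (Nat.totient q : ℝ) +
      4 * Y * H / (Nat.totient q : ℝ) := by ring
  have h6 : 0 ≤ 6 * Y * H / (Nat.totient q : ℝ) := by positivity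
  have h7 : 0 ≤ 4 * Y * H / (Nat.totient q : ℝ) := by positivity
  rw [h5, abs_le]
  constructor <;> linarith

/-- the integers of the window -/
theorem eqd_int (u κ ϑ : ℝ) (hκ : 0 ≤ κ) (X b : ℕ) (hb : b < Wm X) :
    Eqd none (PW ϑ X) (WI (Wu u κ) X b) ((Wu u κ).H / Wm X) (fun _ => 2) := by
  refine ⟨?_, fun _ => by norm_num, ?_⟩
  · intro n _ p _ a ha
    simp at ha
  · intro D hD r _
    have hDX : ∀ p ∈ D, p ∈ PX X := fun p hp => (mem_filter.1 (hD hp)).1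
    have hDp : ∀ p ∈ D, p.Prime := fun p hp => (Pool.Agent.H96R2.EQP.PX_prime (hDX p hp)).1
    have hcop := Pool.Agent.H96R2.EQP.W_cop D hDX
    have hmono : ⌊Real.exp u⌋₊ ≤ ⌊Real.exp (u + κ)⌋₊ :=
      Nat.floor_mono (Real.exp_le_exp.2 (by linarith))
    obtain ⟨c, hc⟩ := cmpI ⌊Real.exp u⌋₊ ⌊Real.exp (u + κ)⌋₊ (Wm X) b r D hb hDp hcop
    have hWI : WI (Wu u κ) X b = (Ioc ⌊Real.exp u⌋₊ ⌊Real.exp (u + κ)⌋₊).filter
        (fun n => n % Wm X = b) := by
      unfold WI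
      rw [Wu_Q]
    have hWpos : 0 < Wm X := primorial_pos _
    have hDpos : 0 < ∏ p ∈ D, p := Finset.prod_pos (fun p hp => (hDp p hp).pos)
    have hq1 : 0 < Wm X * ∏ p ∈ D, p := Nat.mul_pos hWpos hDpos
    have hph : ∏ p ∈ D, ph none p = ((∏ p ∈ D, p : ℕ) : ℝ) := by
      push_cast
      apply prod_congr rfl
      intro p _
      simp [ph]
    rw [hWI, hc, hph, div_div, ← Nat.cast_mul]
    have h1 := cls ⌊Real.exp u⌋₊ ⌊Real.exp (u + κ)⌋₊ (Wm X * ∏ p ∈ D, p) c hmono hq1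
    have hq0 : (1 : ℝ) ≤ ((Wm X * ∏ p ∈ D, p : ℕ) : ℝ) := by exact_mod_cast hq1
    have h2 : |((⌊Real.exp (u + κ)⌋₊ : ℝ) - ⌊Real.exp u⌋₊) / ((Wm X * ∏ p ∈ D, p : ℕ) : ℝ) -
        (Wu u κ).H / ((Wm X * ∏ p ∈ D, p : ℕ) : ℝ)| ≤ 1 := by
      rw [← sub_div, abs_div, abs_of_pos (by linarith : (0 : ℝ) < ((Wm X * ∏ p ∈ D, p : ℕ) : ℝ)),
        div_le_iff₀ (by linarith)]
      have := floor_diff u κ
      have h3 : (Wu u κ).H = Real.exp (u + κ) - Real.exp u := rfl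
      rw [h3]
      linarith
    have h4 := abs_le.1 h1
    have h5 := abs_le.1 h2
    rw [abs_le]
    constructor <;> linarith [h4.1, h4.2, h5.1, h5.2]

open Classical in
/-- the error for the primes -/
noncomputable def ErP (u κ ϑ : ℝ) (X a₀ : ℕ) (M : ℕ → ℝ) (D : Finset ℕ) : ℝ :=
  if (∏ p ∈ D, (p : ℝ)) ≤ (X : ℝ) ^ ϑ then
    a₀ + κ * ((Wu u κ).H + 1) + M (Wm X * ∏ p ∈ D, p)
  else (⌊Real.exp (u + κ)⌋₊ : ℝ) + (Wu u κ).P / Nat.totient (Wm X)

/-- the primes of the window -/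
theorem eqd_prime (u κ ϑ : ℝ) (hκ : 0 ≤ κ) (hu : 1 ≤ u) (X b a₀ : ℕ) (hb : b < Wm X)
    (hX : X ≤ ⌊Real.exp u⌋₊) (ha₀ : 1 ≤ a₀) (hba : (b + a₀).Coprime (Wm X)) (M : ℕ → ℝ)
    (hM0 : ∀ q, 0 ≤ M q)
    (hM : ∀ q c : ℕ, 1 ≤ q → c.Coprime q →
      |th u κ q c - th u κ 1 0 / (Nat.totient q : ℝ)| ≤ M q) :
    Eqd (some a₀) (PW ϑ X) (WP (Wu u κ) X b a₀) ((Wu u κ).P / Nat.totient (Wm X))
      (ErP u κ ϑ X a₀ M) := by
  have hmono : ⌊Real.exp u⌋₊ ≤ ⌊Real.exp (u + κ)⌋₊ :=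
    Nat.floor_mono (Real.exp_le_exp.2 (by linarith))
  have hP0 : 0 ≤ (Wu u κ).P := div_nonneg (th_nonneg _ _ _ _) (by linarith)
  have hH0 : 0 ≤ (Wu u κ).H := by
    have : Real.exp u ≤ Real.exp (u + κ) := Real.exp_le_exp.2 (by linarith)
    show 0 ≤ Real.exp (u + κ) - Real.exp u
    linarith
  have hφW : (0 : ℝ) < Nat.totient (Wm X) := by
    exact_mod_cast Nat.totient_pos.mpr (primorial_pos _)
  have hWP : WP (Wu u κ) X b a₀ = (Ioc ⌊Real.exp u⌋₊ ⌊Real.exp (u + κ)⌋₊).filter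
      (fun n => n % Wm X = b ∧ (n + a₀).Prime) := by
    unfold WP
    rw [Wu_Q]
  refine ⟨?_, ?_, ?_⟩
  · intro n hn p hp a ha
    rw [Option.mem_def, Option.some.injEq] at ha
    subst ha
    rw [hWP, mem_filter, mem_Ioc] at hn
    have hp' : p ∈ PX X := (mem_filter.1 hp).1
    obtain ⟨hpp, _, hpX⟩ := Pool.Agent.H96R2.EQP.PX_prime hp'
    intro hdvd
    have := (Nat.prime_dvd_prime_iff_eq hpp hn.2.2).mp hdvd
    omega
  · intro D
    unfold ErP
    split_ifs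
    · have := hM0 (Wm X * ∏ p ∈ D, p)
      positivity
    · positivity
  · intro D hD r hr
    have hDX : ∀ p ∈ D, p ∈ PX X := fun p hp => (mem_filter.1 (hD hp)).1
    have hDp : ∀ p ∈ D, p.Prime := fun p hp => (Pool.Agent.H96R2.EQP.PX_prime (hDX p hp)).1
    have hcop := Pool.Agent.H96R2.EQP.W_cop D hDX
    have hWpos : 0 < Wm X := primorial_pos _
    have hDpos : 0 < ∏ p ∈ D, p := Finset.prod_pos (fun p hp => (hDp p hp).pos)
    have hq1 : 1 ≤ Wm X * ∏ p ∈ D, p := Nat.mul_pos hWpos hDpos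
    have hph : ∏ p ∈ D, ph (some a₀) p = ∏ p ∈ D, ((p : ℝ) - 1) := by
      apply prod_congr rfl
      intro p _
      simp [ph]
    rw [hWP, hph]
    unfold ErP
    split_ifs with hsmall
    · obtain ⟨c, hc, hcount⟩ := cmpP ⌊Real.exp u⌋₊ ⌊Real.exp (u + κ)⌋₊ (Wm X) b a₀ r D hb hDp hcop
        hba (fun p hp => hr p hp a₀ rfl)
      rw [hcount]
      set q := Wm X * ∏ p ∈ D, p with hq
      have h1 := shift ⌊Real.exp u⌋₊ ⌊Real.exp (u + κ)⌋₊ a₀ (fun l => l.Prime ∧ l ≡ c [MOD q])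
      have h2 := th_bounds u κ q c
      have h3 := pc_le u κ hκ q c
      have h4 := hM q c hq1 hc
      have hpc0 : 0 ≤ pc u κ q c := by unfold pc; positivity
      have hφ : (Nat.totient q : ℝ) = Nat.totient (Wm X) * ∏ p ∈ D, ((p : ℝ) - 1) := by
        rw [hq, Nat.totient_mul hcop, Nat.cast_mul, Pool.Agent.H96R2.EQP.totient_prod D hDp]
      have e1 : (Wu u κ).P / Nat.totient (Wm X) / ∏ p ∈ D, ((p : ℝ) - 1) =
          th u κ 1 0 / u / (Nat.totient q : ℝ) := by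
        rw [hφ, div_div]
        rfl
      rw [e1]
      have hu0 : 0 < u := by linarith
      -- `th / u` and `pc`
      have h5 : |th u κ q c / u - pc u κ q c| ≤ κ * ((Wu u κ).H + 1) := by
        have e2 : th u κ q c / u - pc u κ q c = (th u κ q c - u * pc u κ q c) / u := by
          field_simp
        rw [e2, abs_div, abs_of_pos hu0, div_le_iff₀ hu0, abs_of_nonneg (by linarith [h2.1])]
        have e3 : th u κ q c - u * pc u κ q c ≤ κ * pc u κ q c := by linarith [h2.2]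
        have e4 : κ * pc u κ q c ≤ κ * ((Wu u κ).H + 1) := mul_le_mul_of_nonneg_left h3 hκ
        have e5 : 0 ≤ κ * ((Wu u κ).H + 1) := by positivity
        nlinarith
      have h6 : |th u κ q c / u - th u κ 1 0 / u / (Nat.totient q : ℝ)| ≤ M q := by
        have e2 : th u κ q c / u - th u κ 1 0 / u / (Nat.totient q : ℝ) =
            (th u κ q c - th u κ 1 0 / (Nat.totient q : ℝ)) / u := by
          rw [div_right_comm (th u κ 1 0), sub_div]
        rw [e2, abs_div, abs_of_pos hu0, div_le_iff₀ hu0]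
        have := hM0 q
        nlinarith
      have h7 := abs_le.1 h1
      have h8 := abs_le.1 h5
      have h9 := abs_le.1 h6
      have hpcd : pc u κ q c = (((Ioc ⌊Real.exp u⌋₊ ⌊Real.exp (u + κ)⌋₊).filter
        (fun l => l.Prime ∧ l ≡ c [MOD q])).card : ℝ) := rfl
      rw [← hpcd] at h7
      rw [abs_le]
      constructor <;> linarith [h7.1, h7.2, h8.1, h8.2, h9.1, h9.2]
    · have hcard : ((((Ioc ⌊Real.exp u⌋₊ ⌊Real.exp (u + κ)⌋₊).filter
          (fun n => n % Wm X = b ∧ (n + a₀).Prime)).filter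
          (fun n => ∀ p ∈ D, n % p = r % p)).card : ℝ) ≤ (⌊Real.exp (u + κ)⌋₊ : ℝ) := by
        have : (((Ioc ⌊Real.exp u⌋₊ ⌊Real.exp (u + κ)⌋₊).filter
          (fun n => n % Wm X = b ∧ (n + a₀).Prime)).filter
          (fun n => ∀ p ∈ D, n % p = r % p)).card ≤
            (Ioc ⌊Real.exp u⌋₊ ⌊Real.exp (u + κ)⌋₊).card :=
          (card_filter_le _ _).trans (card_filter_le _ _)
        rw [Nat.card_Ioc] at this
        exact_mod_cast this.trans (Nat.sub_le _ _)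
      have hprod : (1 : ℝ) ≤ ∏ p ∈ D, ((p : ℝ) - 1) := by
        have h1 : ∀ p ∈ D, (1 : ℝ) ≤ (p : ℝ) - 1 := by
          intro p hp
          have : (2 : ℝ) ≤ p := by exact_mod_cast (hDp p hp).two_le
          linarith
        calc (1 : ℝ) = ∏ _p ∈ D, (1 : ℝ) := by simp
          _ ≤ _ := prod_le_prod (fun _ _ => zero_le_one) h1
      have hΩ0 : 0 ≤ (Wu u κ).P / Nat.totient (Wm X) := by positivity
      have h1 : (Wu u κ).P / Nat.totient (Wm X) / ∏ p ∈ D, ((p : ℝ) - 1) ≤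
          (Wu u κ).P / Nat.totient (Wm X) := div_le_self hΩ0 hprod
      have h2 : 0 ≤ (Wu u κ).P / Nat.totient (Wm X) / ∏ p ∈ D, ((p : ℝ) - 1) := by positivity
      have h3 : (0 : ℝ) ≤ ((((Ioc ⌊Real.exp u⌋₊ ⌊Real.exp (u + κ)⌋₊).filter
          (fun n => n % Wm X = b ∧ (n + a₀).Prime)).filter
          (fun n => ∀ p ∈ D, n % p = r % p)).card : ℝ) := Nat.cast_nonneg _
      rw [abs_le]
      constructor <;> linarith

end Pool.Agent.L7h37.BP
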