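import Pool.Agent.L7h18.BP.Eng
import Pool.Agent.H20R2.PP.EQI
import Pool.Agent.H96R2.EQP.D

/-!
# Project BP of helper18: equidistribution in a window, preparations
-/

set_option autoImplicit false

open Finset Filter

namespace Pool.Agent.L7h37.BP

open Pool.Agent.H361R2.PP Pool.Agent.L7h18.BP
open Pool.Agent.L7h88.BW (th)

/-! ### classes in an interval -/

theorem cls (a B q v : ℕ) (haB : a ≤ B) (hq : 0 < q) :
    |(((Ioc a B).filter (fun n => n ≡ v [MOD q])).card : ℝ) - ((B : ℝ) - a) / q| ≤ 1 := by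
  have h := Nat.Ioc_filter_modEq_card a B hq v
  set c := ((Ioc a B).filter (fun n => n ≡ v [MOD q])).card with hc
  set x : ℚ := ((B : ℚ) - v) / (q : ℚ) with hx
  set y : ℚ := ((a : ℚ) - v) / (q : ℚ) with hy
  have hqq : (0 : ℚ) < q := by exact_mod_cast hq
  have hxy : x - y = ((B : ℚ) - a) / q := by
    rw [hx, hy]; field_simp; ring
  have hBa : (a : ℚ) ≤ B := by exact_mod_cast haB
  have hxy0 : 0 ≤ x - y := by
    rw [hxy]
    exact div_nonneg (by linarith) hqq.le
  have h1 := Int.floor_le x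
  have h2 := Int.lt_floor_add_one x
  have h3 := Int.floor_le y
  have h4 := Int.lt_floor_add_one y
  have hcq : (c : ℚ) = max ((⌊x⌋ : ℚ) - ⌊y⌋) 0 := by
    have := congrArg (fun z : ℤ => (z : ℚ)) h
    push_cast at this
    exact this
  have hq1 : |(c : ℚ) - ((B : ℚ) - a) / q| ≤ 1 := by
    rw [hcq, abs_le, ← hxy]
    constructor
    · have := le_max_left ((⌊x⌋ : ℚ) - ⌊y⌋) 0
      linarith
    · have : max ((⌊x⌋ : ℚ) - ⌊y⌋) 0 ≤ x - y + 1 := by
        apply max_le
        · linarith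
        · linarith
      linarith
  have hr : ((|(c : ℚ) - ((B : ℚ) - a) / q| : ℚ) : ℝ) ≤ ((1 : ℚ) : ℝ) := by exact_mod_cast hq1
  push_cast at hr
  exact hr

/-- a shift of an interval changes the number of elements with a property by at most the shift -/
theorem shift (a B s : ℕ) (Q : ℕ → Prop) [DecidablePred Q] :
    |(((Ioc (a + s) (B + s)).filter Q).card : ℝ) - (((Ioc a B).filter Q).card : ℝ)| ≤ s := by
  have h1 : ((Ioc (a + s) (B + s)).filter Q).card ≤ ((Ioc a B).filter Q).card + s := by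
    calc ((Ioc (a + s) (B + s)).filter Q).card
        ≤ (((Ioc a B).filter Q) ∪ Ioc B (B + s)).card := by
          apply card_le_card
          intro n hn
          rw [mem_filter, mem_Ioc] at hn
          rw [mem_union, mem_filter, mem_Ioc, mem_Ioc]
          by_cases h : n ≤ B
          · left; exact ⟨⟨by omega, h⟩, hn.2⟩
          · right; omega
      _ ≤ ((Ioc a B).filter Q).card + (Ioc B (B + s)).card := card_union_le _ _
      _ = _ := by rw [Nat.card_Ioc]; omega
  have h2 : ((Ioc a B).filter Q).card ≤ ((Ioc (a + s) (B + s)).filter Q).card + s := by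
    calc ((Ioc a B).filter Q).card
        ≤ (((Ioc (a + s) (B + s)).filter Q) ∪ Ioc a (a + s)).card := by
          apply card_le_card
          intro n hn
          rw [mem_filter, mem_Ioc] at hn
          rw [mem_union, mem_filter, mem_Ioc, mem_Ioc]
          by_cases h : n ≤ a + s
          · right; omega
          · left; exact ⟨⟨by omega, by omega⟩, hn.2⟩
      _ ≤ ((Ioc (a + s) (B + s)).filter Q).card + (Ioc a (a + s)).card := card_union_le _ _
      _ = _ := by rw [Nat.card_Ioc]; omega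
  have h1' : (((Ioc (a + s) (B + s)).filter Q).card : ℝ) ≤ (((Ioc a B).filter Q).card : ℝ) + s := by
    exact_mod_cast h1
  have h2' : (((Ioc a B).filter Q).card : ℝ) ≤ (((Ioc (a + s) (B + s)).filter Q).card : ℝ) + s := by
    exact_mod_cast h2
  rw [abs_le]
  constructor <;> linarith

/-- integers in a class modulo `W` and prescribed classes modulo the primes of `D` -/
theorem cmpI (a B W b r : ℕ) (D : Finset ℕ) (hb : b < W) (hD : ∀ p ∈ D, p.Prime)
    (hcop : W.Coprime (∏ p ∈ D, p)) :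
    ∃ c : ℕ, (((Ioc a B).filter (fun n => n % W = b)).filter
      (fun n => ∀ p ∈ D, n % p = r % p)).card =
      ((Ioc a B).filter (fun l => l ≡ c [MOD W * ∏ p ∈ D, p])).card := by
  obtain ⟨v, hv1, hv2⟩ := Nat.chineseRemainder hcop b r
  refine ⟨v, ?_⟩
  congr 1
  rw [filter_filter]
  apply filter_congr
  intro n _
  rw [Pool.Agent.H20R2.EQI.modD D hD n r, ← Nat.modEq_and_modEq_iff_modEq_mul hcop]
  have hbb : b % W = b := Nat.mod_eq_of_lt hb
  constructor
  · rintro ⟨h1, h2⟩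
    refine ⟨?_, h2.trans hv2.symm⟩
    have : n ≡ b [MOD W] := by unfold Nat.ModEq; rw [h1, hbb]
    exact this.trans hv1.symm
  · rintro ⟨h1, h2⟩
    refine ⟨?_, h2.trans hv2⟩
    have : n ≡ b [MOD W] := h1.trans hv1
    unfold Nat.ModEq at this
    rw [this, hbb]

/-- primes `n + s` with `n` in a class modulo `W` and prescribed classes modulo the primes of `D` -/
theorem cmpP (a B W b s r : ℕ) (D : Finset ℕ) (hb : b < W)
    (hD : ∀ p ∈ D, p.Prime) (hcop : W.Coprime (∏ p ∈ D, p)) (hbs : (b + s).Coprime W)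
    (hr : ∀ p ∈ D, ¬ p ∣ r + s) :
    ∃ c : ℕ, c.Coprime (W * ∏ p ∈ D, p) ∧
    (((Ioc a B).filter (fun n => n % W = b ∧ (n + s).Prime)).filter
      (fun n => ∀ p ∈ D, n % p = r % p)).card =
      ((Ioc (a + s) (B + s)).filter (fun l => l.Prime ∧ l ≡ c [MOD W * ∏ p ∈ D, p])).card := by
  obtain ⟨m, hm⟩ : ∃ m : ℕ, m = ∏ p ∈ D, p := ⟨_, rfl⟩
  obtain ⟨c, hcW, hcm⟩ := Nat.chineseRemainder hcop b r
  rw [← hm] at hcop hcm ⊢
  have hm0 : 0 < m := by rw [hm]; exact Finset.prod_pos fun p hp => (hD p hp).pos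
  have hc1 : (c + s).Coprime W := by
    have h1 : c + s ≡ b + s [MOD W] := hcW.add_right _
    rw [Nat.Coprime, h1.gcd_eq]
    exact hbs
  have hc2 : (c + s).Coprime m := by
    rw [hm]
    apply Nat.Coprime.prod_right
    intro p hp
    have hpp := hD p hp
    apply Nat.Coprime.symm
    rw [Nat.Prime.coprime_iff_not_dvd hpp]
    intro hdvd
    apply hr p hp
    have hpm : p ∣ m := by rw [hm]; exact Finset.dvd_prod_of_mem (fun p => p) hp
    have h1 : c + s ≡ r + s [MOD p] := (hcm.of_dvd hpm).add_right _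
    exact (h1.dvd_iff dvd_rfl).mp hdvd
  refine ⟨c + s, hc1.mul_right hc2, ?_⟩
  apply Finset.card_bij (fun n _ => n + s)
  · intro n hn
    rw [mem_filter, mem_filter, mem_Ioc] at hn
    rw [mem_filter, mem_Ioc]
    refine ⟨by omega, hn.1.2.2, ?_⟩
    apply Nat.ModEq.add_right
    rw [← Nat.modEq_and_modEq_iff_modEq_mul hcop]
    constructor
    · have h1 : n ≡ b [MOD W] := by
        rw [Nat.ModEq, hn.1.2.1, Nat.mod_eq_of_lt hb]
      exact h1.trans hcW.symm
    · have h1 := (Pool.Agent.H20R2.EQI.modD D hD n r).mp hn.2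
      rw [← hm] at h1
      exact h1.trans hcm.symm
  · intro n _ n' _ h; exact Nat.add_right_cancel h
  · intro l hl
    rw [mem_filter, mem_Ioc] at hl
    refine ⟨l - s, ?_, by omega⟩
    have hla : l - s + s = l := by omega
    have h1 : l - s + s ≡ c + s [MOD W * m] := by rw [hla]; exact hl.2.2
    have h2 : l - s ≡ c [MOD W * m] := Nat.ModEq.add_right_cancel' _ h1
    rw [← Nat.modEq_and_modEq_iff_modEq_mul hcop] at h2
    rw [mem_filter, mem_filter, mem_Ioc]
    refine ⟨⟨by omega, ?_, ?_⟩, ?_⟩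
    · have h3 := h2.1.trans hcW
      rw [Nat.ModEq, Nat.mod_eq_of_lt hb] at h3
      exact h3
    · rw [hla]; exact hl.2.1
    · rw [Pool.Agent.H20R2.EQI.modD D hD, ← hm]
      exact h2.2.trans hcm

/-! ### the window -/

theorem win_iff (u : ℝ) (n : ℕ) (hn : 1 ≤ n) : u < Real.log n ↔ ⌊Real.exp u⌋₊ < n := by
  have hn0 : (0 : ℝ) < n := by exact_mod_cast hn
  rw [Real.lt_log_iff_exp_lt hn0, Nat.floor_lt (Real.exp_pos u).le]

theorem Wu_Q (u κ : ℝ) : (Wu u κ).Q = Ioc ⌊Real.exp u⌋₊ ⌊Real.exp (u + κ)⌋₊ := by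
  unfold Wu
  ext n
  simp only [mem_filter, mem_Icc, mem_Ioc]
  constructor
  · rintro ⟨⟨h1, h2⟩, h3⟩
    exact ⟨(win_iff u n h1).1 h3, h2⟩
  · rintro ⟨h1, h2⟩
    have h3 : 1 ≤ n := by omega
    exact ⟨⟨h3, h2⟩, (win_iff u n h3).2 h1⟩

/-- number of primes of the window in a class -/
noncomputable def pc (u κ : ℝ) (q c : ℕ) : ℝ :=
  (((Ioc ⌊Real.exp u⌋₊ ⌊Real.exp (u + κ)⌋₊).filter (fun l => l.Prime ∧ l ≡ c [MOD q])).card : ℝ)

theorem th_eq (u κ : ℝ) (q c : ℕ) : th u κ q c =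
    ∑ p ∈ (Ioc ⌊Real.exp u⌋₊ ⌊Real.exp (u + κ)⌋₊).filter (fun l => l.Prime ∧ l ≡ c [MOD q]),
      Real.log p := by
  unfold th
  refine sum_congr ?_ fun _ _ => rfl
  ext n
  simp only [mem_filter, mem_Icc, mem_Ioc]
  constructor
  · rintro ⟨⟨h1, h2⟩, h3, h4, h5⟩
    exact ⟨⟨(win_iff u n h1).1 h4, h2⟩, h3, h5⟩
  · rintro ⟨⟨h1, h2⟩, h3, h5⟩
    have h6 : 1 ≤ n := by omega
    exact ⟨⟨h6, h2⟩, h3, (win_iff u n h6).2 h1, h5⟩

theorem th_bounds (u κ : ℝ) (q c : ℕ) :
    u * pc u κ q c ≤ th u κ q c ∧ th u κ q c ≤ (u + κ) * pc u κ q c := by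
  rw [th_eq]
  unfold pc
  constructor
  · rw [mul_comm, ← nsmul_eq_mul]
    refine Finset.card_nsmul_le_sum _ _ _ fun p hp => ?_
    rw [mem_filter, mem_Ioc] at hp
    exact ((win_iff u p (by omega)).2 hp.1.1).le
  · rw [mul_comm, ← nsmul_eq_mul]
    refine Finset.sum_le_card_nsmul _ _ _ fun p hp => ?_
    rw [mem_filter, mem_Ioc] at hp
    have hp0 : (0 : ℝ) < p := by exact_mod_cast (by omega : 0 < p)
    rw [Real.log_le_iff_le_exp hp0]
    exact (Nat.le_floor_iff (Real.exp_pos _).le).1 hp.1.2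

theorem th_nonneg (u κ : ℝ) (q c : ℕ) : 0 ≤ th u κ q c := by
  rw [th_eq]
  exact sum_nonneg fun p _ => Real.log_natCast_nonneg p

theorem th_mod (u κ : ℝ) (q a : ℕ) : th u κ q (a % q) = th u κ q a := by
  rw [th_eq, th_eq]
  refine sum_congr ?_ fun _ _ => rfl
  apply filter_congr
  intro p _
  unfold Nat.ModEq
  rw [Nat.mod_mod]

/-- the worst class -/
theorem exists_worst (f : ℕ → ℕ → ℝ) (hf : ∀ q a, f q (a % q) = f q a) :
    ∃ a : ℕ → ℕ, (∀ q, (a q).Coprime q) ∧ ∀ q c, 1 ≤ q → c.Coprime q → f q c ≤ f q (a q) := by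
  have h : ∀ q : ℕ, ∃ a : ℕ, a.Coprime q ∧ ∀ c, 1 ≤ q → c.Coprime q → f q c ≤ f q a := by
    intro q
    rcases Nat.eq_zero_or_pos q with h0 | h0
    · exact ⟨1, Nat.coprime_one_left q, fun c hc => by omega⟩
    · have hmem : ∀ c : ℕ, c.Coprime q → c % q ∈ (range q).filter (fun x => x.Coprime q) := by
        intro c hc
        rw [mem_filter, mem_range]
        refine ⟨Nat.mod_lt _ h0, ?_⟩
        have h6 := Nat.gcd_rec q c
        rw [Nat.Coprime, ← h6, Nat.gcd_comm]
        exact hc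
      obtain ⟨a, ha, hmax⟩ := Finset.exists_max_image ((range q).filter (fun x => x.Coprime q))
        (fun x => f q x) ⟨_, hmem 1 (Nat.coprime_one_left q)⟩
      refine ⟨a, (mem_filter.1 ha).2, fun c _ hc => ?_⟩
      rw [← hf]
      exact hmax _ (hmem c hc)
  choose a ha1 ha2 using h
  exact ⟨a, ha1, fun q c hq hc => ha2 q c hq hc⟩

theorem ev (C : ℝ) (n : ℕ) (ε : ℝ) (hε : 0 < ε) :
    ∀ᶠ Y : ℝ in atTop, C * Y ^ n ≤ Real.exp (ε * Y) := by
  have h := (isLittleO_pow_exp_pos_mul_atTop n hε).bound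
    (show (0 : ℝ) < 1 / (|C| + 1) by positivity)
  filter_upwards [h, eventually_ge_atTop 0] with Y hY hY0
  rw [Real.norm_of_nonneg (by positivity), Real.norm_of_nonneg (Real.exp_pos _).le,
    div_mul_eq_mul_div, one_mul, le_div_iff₀ (by positivity)] at hY
  have h1 : C * Y ^ n ≤ |C| * Y ^ n := mul_le_mul_of_nonneg_right (le_abs_self C) (by positivity)
  have h2 : 0 ≤ Y ^ n := by positivity
  nlinarith

end Pool.Agent.L7h37.BP
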